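import Pool.Agent.N915.ML.Fin

/-! # A number is normal if and only if all its multiples are simply normal

A real number `x` is simply normal in base `b` if every digit has the frequency `1 / b`. We prove that,
for `b ≥ 3`, a real number `x` is normal in base `b` if and only if all the multiples `m x`, `m ≥ 1`,
are simply normal in base `b`. In particular `π` is normal in base `10` if and only if the ten digits
are equally frequent in each of the numbers `π, 2π, 3π, …`.

The theorem is effective at every single stage: for every `ε > 0` there are `Q` and `δ > 0`, which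
depend on `b` and `ε` only, such that for all `x` and `N`: if the frequencies of the digits among the
first `N` digits of `x, 2x, …, Qx` differ by at most `δ` from `1 / b`, then the frequencies of all words
in the first `N` places of `x` differ by at most `ε` from the expected ones. This comes from a criterion
for the uniform distribution modulo one of arbitrary sequences `u`, by the images of `B ≥ 3` equal
intervals: it suffices that for all `m ≥ 1` the sequence `m u` visits the `B` intervals
`[a / B, (a + 1) / B)` with equal frequencies.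

For `b = 2` the theorem is false: all multiples of the Thue–Morse number are simply normal in base `2`,
but the word `000` does not occur in it. The words of length two suffice for `b = 2`.

Proof. For a character `χ` modulo `B` the function `Φ(y) = ∑_{k ≠ 0} χ(k) e(k y) / k` is constant on the
`B` intervals, and `∑_m μ(m) χ(m) Φ(m y) / m` is a multiple of `sin 2πy` for even and of `cos 2πy` for
odd `χ`; odd characters exist for `B ≥ 3` only. We prove that the convergence is uniform in `y`, by the
estimate of Davenport for `∑ μ(m) e(m α)` (from the starting files, `Pool.Agent.H373R2.T7.sup_mu`), so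
that the exponential sums with the frequency `h` are controlled by the images under the multiplication
with the multiples of `h`. The multiples of the Thue–Morse number are treated by pairing the places
`n` and `n + 2^k`, where the sequence is complementary, and by recognizability.
-/

set_option autoImplicit false

open Filter Topology

namespace Pool.Agent.Results.MP_57632f_nt.SimplyNormalMultiples

/-- the `i`-th digit of `x` after the point in base `b` -/
noncomputable def digit (b : ℕ) (x : ℝ) (i : ℕ) : ℤ := ⌊x * (b : ℝ) ^ i⌋ % (b : ℤ)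

/-- the number of `1 ≤ i ≤ N` with `d_i d_(i+1) … d_(i+k-1) = w_0 w_1 … w_(k-1)`, for the digits `d_i`
of `x` in base `b` -/
noncomputable def count (b : ℕ) (x : ℝ) (k : ℕ) (w : ℕ → ℤ) (N : ℕ) : ℕ :=
  ((Finset.Icc 1 N).filter fun i => ∀ j < k, digit b x (i + j) = w j).card

/-- `w_0 … w_(k-1)` is a word over the digits `0, …, b - 1` -/
def IsWord (b k : ℕ) (w : ℕ → ℤ) : Prop := ∀ j < k, 0 ≤ w j ∧ w j < b

/-- all words of length `k` have the frequency `b ^ (-k)` in `x`. For `k = 1`: `x` is simply normal in
base `b` -/
def Freq (b k : ℕ) (x : ℝ) : Prop := ∀ w : ℕ → ℤ, IsWord b k w →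
  Tendsto (fun N : ℕ => (count b x k w N : ℝ) / (N : ℝ)) atTop (𝓝 (1 / (b : ℝ) ^ k))

/-- `x` is normal in base `b` -/
def Normal (b : ℕ) (x : ℝ) : Prop := ∀ k : ℕ, 1 ≤ k → Freq b k x

/-- the number of `n < N` for which the fractional part of `u n` lies in `[s, t)` -/
noncomputable def visits (u : ℕ → ℝ) (s t : ℝ) (N : ℕ) : ℕ :=
  ((Finset.range N).filter fun n => s ≤ Int.fract (u n) ∧ Int.fract (u n) < t).card

/-- the Thue–Morse number: its binary digit after `n` places, `n ≥ 0`, is the parity of the number of
ones in the binary expansion of `n` -/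
noncomputable def thueMorse : ℝ := ∑' n : ℕ, (((Nat.digits 2 n).sum % 2 : ℕ) : ℝ) / 2 ^ (n + 1)

/-- (1) Let `b ≥ 2`, `k ≥ 1` and `b ^ k ≥ 3` (so `k = 1` is allowed for `b ≥ 3`). A real number `x` is
normal in base `b` if and only if all words of length `k` have the frequency `b ^ (-k)` in all multiples
`m x`, `m ≥ 1`. In particular `π` is normal in base `10` if and only if all positive multiples of `π` are
simply normal in base `10`.
(2) The same at every stage: for such `b, k` and all `ε > 0` there are `Q ≥ 1` and `δ > 0` such that for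
all real `x` and all `N`, if for `1 ≤ m ≤ Q` every word of length `k` occurs in the first `N` places of
`m x` the right number `N / b ^ k` of times up to `δ N`, then every word of every length `l` occurs in
the first `N` places of `x` the right number `N / b ^ l` of times up to `ε N`.
(3) For all `B ≥ 3` and `ε > 0` there are `Q ≥ 1` and `δ > 0` such that for all sequences `u` and all
`N`, if for `1 ≤ m ≤ Q` the first `N` terms of `m u` visit each of the `B` intervals
`[a / B, (a + 1) / B)` modulo one the right number `N / B` of times up to `δ N`, then the first `N` terms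
of `u` visit every interval `[s, t)` modulo one the right number `(t - s) N` of times up to `ε N`.
(4) All multiples `m τ`, `m ≥ 1`, of the Thue–Morse number `τ` are simply normal in base `2`, but `τ` is
not normal in base `2`. -/
theorem result :
    ((∀ b k : ℕ, 2 ≤ b → 3 ≤ b ^ k → ∀ x : ℝ, Normal b x ↔ ∀ m : ℕ, 1 ≤ m → Freq b k (m * x)) ∧
      (Normal 10 Real.pi ↔ ∀ m : ℕ, 1 ≤ m → Freq 10 1 (m * Real.pi))) ∧
    (∀ b k : ℕ, 2 ≤ b → 3 ≤ b ^ k → ∀ ε : ℝ, 0 < ε → ∃ Q : ℕ, 1 ≤ Q ∧ ∃ δ : ℝ, 0 < δ ∧
      ∀ (x : ℝ) (N : ℕ),
        (∀ m : ℕ, 1 ≤ m → m ≤ Q → ∀ w : ℕ → ℤ, IsWord b k w →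
          |(count b (m * x) k w N : ℝ) - N / (b : ℝ) ^ k| ≤ δ * N) →
        ∀ (l : ℕ) (w : ℕ → ℤ), IsWord b l w →
          |(count b x l w N : ℝ) - N / (b : ℝ) ^ l| ≤ ε * N) ∧
    (∀ B : ℕ, 3 ≤ B → ∀ ε : ℝ, 0 < ε → ∃ Q : ℕ, 1 ≤ Q ∧ ∃ δ : ℝ, 0 < δ ∧
      ∀ (u : ℕ → ℝ) (N : ℕ),
        (∀ m : ℕ, 1 ≤ m → m ≤ Q → ∀ a < B,
          |(visits (fun n => m * u n) ((a : ℝ) / B) (((a : ℝ) + 1) / B) N : ℝ) - N / B| ≤ δ * N) →
        ∀ s t : ℝ, 0 ≤ s → s < t → t ≤ 1 → |(visits u s t N : ℝ) - (t - s) * N| ≤ ε * N) ∧
    ((∀ m : ℕ, 1 ≤ m → Freq 2 1 (m * thueMorse)) ∧ ¬ Normal 2 thueMorse) := by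
  refine ⟨⟨fun b k hb hbk x => Pool.Agent.N915.ML.iff_multiples b k hb hbk x,
    Pool.Agent.N915.ML.iff_multiples 10 1 (by norm_num) (by norm_num) Real.pi⟩,
    fun b k hb hbk ε hε => Pool.Agent.N915.ML.stage b k hb hbk ε hε, fun B hB ε hε => ?_,
    fun m hm => Pool.Agent.N915.ML.tau_multiples m hm, Pool.Agent.N915.ML.tau_not_normal⟩
  obtain ⟨Q, hQ, δ, hδ, H⟩ := Pool.Agent.N915.ML.crit B hB ε hε
  refine ⟨Q, hQ, δ, hδ, fun u N h s t h0 h1 h2 => ?_⟩
  have h3 := H (Finset.range N) u (fun m hm hmQ a ha => by
    rw [Finset.card_range]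
    exact h m hm hmQ a ha) s t h0 h1 h2
  rw [Finset.card_range] at h3
  exact h3

end Pool.Agent.Results.MP_57632f_nt.SimplyNormalMultiples
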